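import Pool.Agent.U201.BB.Top

set_option autoImplicit false

/-!
# Finiteness of the topological types of the quotients `(A × F) / G`

Let `X` be a smooth Calabi–Yau variety (`K_X` is numerically trivial). By Beauville and Bogomolov
`X = (A × F) / G`, where `A` is an abelian variety, `F` is simply connected with trivial canonical
bundle (a product of irreducible symplectic and strict Calabi–Yau manifolds), and the finite group `G`
acts freely, by pairs of an automorphism of `A` (a composition of a translation and a homomorphism)
and an automorphism of `F`.

The theorem of this file: if `F` runs through a finite list, and `A` and `G` are arbitrary, then the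
varieties `X` of a given dimension have only finitely many topological types. Here the groups of
automorphisms of the `F` in the list are assumed to have only finitely many conjugacy classes of finite
subgroups; this holds if `F` satisfies the (existence part of the) cone conjecture of Morrison and
Kawamata and has only finitely many automorphisms acting trivially on `N^1(F)`, for instance if `F` is
a K3 surface (Sterk) or irreducible symplectic (Markman, Amerik–Verbitsky). In particular Q1 is reduced
to its equivariant version for simply connected varieties: if the pairs `(F, H)`, `F` a simply connected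
Calabi–Yau variety of dimension at most `n` and `H` a finite group of automorphisms of `F`, have only
finitely many topological types, then there are only finitely many topological types of Calabi–Yau
varieties of dimension `n`.

More precisely, let `F` be any topological space and `𝒜` a group of homeomorphisms of `F`. The spaces
`X = (T × F) / G` are considered, where `T = V / Λ` is any torus of dimension `m` (for a complex torus,
`m` is twice the complex dimension) and the finite group `G` acts on `T × F` by pairs of an affine
automorphism of `T` and an element of `𝒜`. (The action need not be free.) They are given by the group `π`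
of all lifts to `V × F` of the elements of `G`, so `X = (V × F) / π`.

Proof. If `F` is a point this is the theorem of Bieberbach on crystallographic groups. The main steps:
(1) For an order in a real algebra with a positive involution the reduction theory of Voronoi, Köcher,
Siegel and Weyl (starting library, `Y167.Sys.reduction`) covers the cone of the positive definite
elements by translates of a rational polyhedral cone; by the Siegel property of rational polyhedral
cones (`EC.siegel`) the stabilizers of the positive definite elements are conjugate to subsets of a
fixed finite set (`stab_finite`). For the ring of integral matrices this gives the theorem of Jordan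
and Zassenhaus on finite subgroups of `GL_m(ℤ)` (`jz`). (2) In the same way a group `𝒜` which satisfies
the cone conjecture has only finitely many finite subgroups up to conjugacy (`finsub_of_cone`). (3) The
origin of `V` can be chosen such that the translation parts of all elements of `π` have bounded
denominators (`exists_origin`; the sum over the finite group of the pairs of linear parts and elements
of `𝒜`). (4) There are only finitely many groups in the normal form which is obtained
(`nice_finite`), and conjugate groups have homeomorphic quotients (`homeo`).

`transl`, `IsQuot`, `orb`, `Quo` and `FinSub` are defined in `Pool.Agent.U201.BB.Defs`; `rc`, `glx` and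
`IsConeGroup` in `Pool.Agent.U201.BB.ConeDefs`.
-/

namespace Pool.Agent.Results.MP_3d72f2_ag.FlatFibrations

open Pool.Agent.U201.BB

/-- Let `F i` be topological spaces, for `i` in a finite set, with actions of groups `𝒜 i` by
homeomorphisms. Every `𝒜 i` has only finitely many conjugacy classes of finite subgroups (for instance,
it is finite), or it satisfies the existence part of the cone conjecture and has a finite kernel of the
action on the classes. Let `m` be a natural number. Then there are finitely many topological spaces
`X 1, …, X n` such that for every `i`, every real vector space `V` of dimension `m` and every group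
`π` of pairs of affine transformations of `V` and elements of `𝒜 i`, whose translations form a lattice
`Λ` and such that `π / Λ` is finite, the quotient `(V × F i) / π` is homeomorphic to one of
the `X k`. -/
theorem result (m : ℕ) {I : Type} [Finite I] (𝒜 : I → Type) [∀ i, Group (𝒜 i)] (F : I → Type)
    [∀ i, TopologicalSpace (F i)] [∀ i, MulAction (𝒜 i) (F i)]
    [∀ i, ContinuousConstSMul (𝒜 i) (F i)]
    (h𝒜 : ∀ i, FinSub (𝒜 i) ∨ ∃ (ρ : ℕ) (σ : 𝒜 i →* (Matrix (Fin ρ) (Fin ρ) ℤ)ˣ)
      (N : Set (Fin ρ → ℝ)) (u : Fin ρ → ℤ), IsConeGroup σ N u) :
    ∃ (n : ℕ) (X : Fin n → TopCat.{0}), ∀ (i : I) (V : Type) [NormedAddCommGroup V]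
      [NormedSpace ℝ V] [FiniteDimensional ℝ V] (π : Subgroup ((V ≃ᵃ[ℝ] V) × 𝒜 i)),
        Module.finrank ℝ V = m → IsQuot π → ∃ k, Nonempty (Quo (F i) π ≃ₜ X k) := by
  have h1 : ∀ i, ∃ (n : ℕ) (X : Fin n → TopCat.{0}), ∀ (V : Type) [NormedAddCommGroup V]
      [NormedSpace ℝ V] [FiniteDimensional ℝ V] (π : Subgroup ((V ≃ᵃ[ℝ] V) × 𝒜 i)),
        Module.finrank ℝ V = m → IsQuot π → ∃ k, Nonempty (Quo (F i) π ≃ₜ X k) := by
    intro i
    refine one_fibre m (𝒜 i) (F i) ?_
    rcases h𝒜 i with h | ⟨ρ, σ, N, u, h⟩
    · exact finsub_of h
    · exact finsub_of_cone h
  choose n X hX using h1
  obtain ⟨N, ⟨ι⟩⟩ := Finite.exists_equiv_fin (Σ i, Fin (n i))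
  refine ⟨N, fun k => X (ι.symm k).1 (ι.symm k).2, fun i V _ _ _ π hm hπ => ?_⟩
  obtain ⟨k, hk⟩ := hX i V π hm hπ
  refine ⟨ι ⟨i, k⟩, ?_⟩
  change Nonempty (Quo (F i) π ≃ₜ X (ι.symm (ι ⟨i, k⟩)).1 (ι.symm (ι ⟨i, k⟩)).2)
  rw [Equiv.symm_apply_apply]
  exact hk

/-- Finite groups satisfy the first alternative of the hypothesis. -/
theorem finSub_of_finite (𝒜 : Type) [Group 𝒜] [Finite 𝒜] : FinSub 𝒜 :=
  ⟨Set.univ, Set.toFinite _, fun _ _ => Set.toFinite _, fun _ _ => ⟨1, Set.mem_univ _⟩⟩

end Pool.Agent.Results.MP_3d72f2_ag.FlatFibrations
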