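import Mathlib

/-!
# Topological types of Calabi-Yau varieties: infinitely many dimensions suffice

The product of a Calabi-Yau variety `X` with a power of an elliptic curve is a Calabi-Yau variety, of
topological type `X × T`, `T` a torus of real dimension `2k`. If `X` runs through simply connected
manifolds of dimension `2n ≥ 6` with `X × T` homeomorphic to one manifold `Y`, then `X × ℝ^(2k)` is the
universal cover of `Y`; so the `X` are homotopy equivalent, compatibly with their stable tangent
bundles, and the normal invariants of the homotopy equivalences are in the image of the finite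
group `[X, G]` in `[X, G/TOP]`. Since `L_(2n+1)(1) = 0`, surgery shows that they fall into finitely
many homeomorphism types. So finiteness in one dimension implies the finiteness of the simply
connected types in all smaller dimensions.
-/

set_option autoImplicit false

namespace Pool.Agent.Results.MP_3d72f2_ag.InfinitelyManyDimensions

/-- `Typ`: homeomorphism types of compact manifolds of even dimension; `dim t`: half of the
dimension; `CY t`: `t` is the type of a smooth Calabi-Yau variety; `Simple t`: simply connected;
`times t k`: the product with the torus of real dimension `2k`. -/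
structure Types where
  Typ : Type
  dim : Typ → ℕ
  CY : Typ → Prop
  Simple : Typ → Prop
  times : Typ → ℕ → Typ

/-- The facts used: products of Calabi-Yau varieties with powers of an elliptic curve; finite
cancellation of tori for simply connected manifolds of real dimension at least six (surgery). -/
structure Facts (A : Types) : Prop where
  dim_times : ∀ t k, A.dim (A.times t k) = A.dim t + k
  cy_times : ∀ t k, A.CY t → A.CY (A.times t k)
  cancel : ∀ (y : A.Typ) (n k : ℕ), 3 ≤ n →
    {t | A.dim t = n ∧ A.Simple t ∧ A.times t k = y}.Finite

/-- If in the dimensions `n` of one infinite set `D` the smooth Calabi-Yau varieties have only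
finitely many topological types, then in every dimension `n ≥ 3` the simply connected smooth
Calabi-Yau varieties have only finitely many topological types. More precisely, finiteness in one
dimension `m` implies this for all `n` with `3 ≤ n ≤ m`. -/
theorem result (A : Types) (h : Facts A) :
    (∀ m : ℕ, {t | A.dim t = m ∧ A.CY t}.Finite → ∀ n : ℕ, 3 ≤ n → n ≤ m →
      {t | A.dim t = n ∧ A.Simple t ∧ A.CY t}.Finite) ∧
    ∀ D : Set ℕ, D.Infinite → (∀ m ∈ D, {t | A.dim t = m ∧ A.CY t}.Finite) →
      ∀ n : ℕ, 3 ≤ n → {t | A.dim t = n ∧ A.Simple t ∧ A.CY t}.Finite := by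
  have one : ∀ m : ℕ, {t | A.dim t = m ∧ A.CY t}.Finite → ∀ n : ℕ, 3 ≤ n → n ≤ m →
      {t | A.dim t = n ∧ A.Simple t ∧ A.CY t}.Finite := by
    intro m hm n hn hnm
    have hU : (⋃ y ∈ {t | A.dim t = m ∧ A.CY t},
        {t | A.dim t = n ∧ A.Simple t ∧ A.times t (m - n) = y}).Finite :=
      hm.biUnion fun y _ => h.cancel y n (m - n) hn
    refine hU.subset ?_
    rintro t ⟨h1, h2, h3⟩
    rw [Set.mem_iUnion₂]
    refine ⟨A.times t (m - n), ⟨?_, h.cy_times t _ h3⟩, h1, h2, rfl⟩
    rw [h.dim_times, h1]
    omega
  refine ⟨one, fun D hD hf n hn => ?_⟩
  obtain ⟨m, hm, hlt⟩ := hD.exists_gt n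
  exact one m (hf m hm) n hn hlt.le

end Pool.Agent.Results.MP_3d72f2_ag.InfinitelyManyDimensions
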